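import Pool.Agent.V1194.DT.Lin

/-!
# Algebraic cycles on the product of a power of an abelian variety and an arbitrary variety

`A` is an abelian variety over a finitely generated field `K`, `V` its Tate module with coefficients
extended to an algebraic closure `k` of `ℚ_ℓ`, with the action `ρ` of the Galois group `Γ` of `K`, and
`χ` is the cyclotomic character. The cohomology group `H^j(A^n)` is the space of the alternating forms
in `j` variables on `V ^ n`.
-/

set_option autoImplicit false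

namespace Pool.Agent.V1194.DT

open Module

noncomputable section

variable {k : Type} [Field k] {V : Type} [AddCommGroup V] [Module k V] {Γ : Type} [Group Γ]

/-- The action of `s` on the Tate module `V ^ n` of `A ^ n`. -/
def act (ρ : Representation k Γ V) (n : ℕ) (s : Γ) : (Fin n → V) →ₗ[k] (Fin n → V) :=
  LinearMap.pi fun i => (ρ s).comp (LinearMap.proj i)

/-- `f ∈ H^j(A^n)` is fixed by a subgroup of finite index, up to the `m`-th power of `χ`: it is a Tate
class, if `j = 2 m`. -/
def IsTate (ρ : Representation k Γ V) (χ : Γ →* k) (m : ℕ) {n j : ℕ}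
    (f : (Fin n → V) [⋀^Fin j]→ₗ[k] k) : Prop :=
  ∃ Δ : Subgroup Γ, Δ.FiniteIndex ∧ ∀ s ∈ Δ, ∀ v, f (fun l => act ρ n s (v l)) = χ s ^ m * f v

/-- `f ∈ H^j(A^n)` is, up to a rational factor, the cup product of Tate classes `B l` of degree two. -/
def IsProduct (ρ : Representation k Γ V) (χ : Γ →* k) {n j : ℕ}
    (f : (Fin n → V) [⋀^Fin j]→ₗ[k] k) : Prop :=
  ∃ (m : ℕ) (ε : Fin m × Fin 2 ≃ Fin j) (B : Fin m → (Fin n → V) [⋀^Fin 2]→ₗ[k] k),
    (∀ l, IsTate ρ χ 1 (B l)) ∧ ∀ v, f v = ∑ σ : Equiv.Perm (Fin m × Fin 2),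
      ((Equiv.Perm.sign σ : ℤ) : k) * ∏ l, B l ![v (ε (σ (l, 0))), v (ε (σ (l, 1)))]

/-- `x`, a Künneth component in `H^j(A^n) ⊗ H^b(U)` of a class of codimension `c` on `A^n × U`, is
fixed by a subgroup of finite index of the Galois group. -/
def IsTateTimes (ρ : Representation k Γ V) (χ : Γ →* k) {M : Type} [AddCommGroup M] [Module k M]
    (τ : Representation k Γ M) (c : ℕ) {n j : ℕ} (x : (Fin n → V) [⋀^Fin j]→ₗ[k] M) : Prop :=
  ∃ Δ : Subgroup Γ, Δ.FiniteIndex ∧ ∀ s ∈ Δ, ∀ v,
    x (fun l => act ρ n s (v l)) = χ s ^ c • τ s (x v)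

/-- `H^j(A^n)` is a semisimple representation of each subgroup of finite index: each stable subspace has
a stable complement. -/
def IsSemisimpleRep (ρ : Representation k Γ V) (n j : ℕ) : Prop :=
  ∀ Δ : Subgroup Γ, Δ.FiniteIndex → ∀ S : Submodule k ((Fin n → V) [⋀^Fin j]→ₗ[k] k),
    (∀ s ∈ Δ, ∀ f ∈ S, f.compLinearMap (act ρ n s) ∈ S) →
    ∃ S' : Submodule k ((Fin n → V) [⋀^Fin j]→ₗ[k] k),
      (∀ s ∈ Δ, ∀ f ∈ S', f.compLinearMap (act ρ n s) ∈ S') ∧ IsCompl S S'

variable {M : ℕ → Type} [∀ b, AddCommGroup (M b)] [∀ b, Module k (M b)]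

/-- Let `A` be an abelian variety of dimension `g` and `U` a smooth projective variety of dimension `d`
over a finitely generated field `K`. The space `M b` is the cohomology group `H^b(U)`, with the action
`τ b` of the Galois group and the Poincaré duality pairings `B b b'`, `b + b' = 2 d`. The part
`H^j(A^n) ⊗ H^b(U)` of the cohomology of `A^n × U` is the space of the alternating maps in `j` variables
from `V ^ n` to `M b`. Then `ZA j ⊆ H^j(A^n)`, `ZU b ⊆ H^b(U)` and `Z j b ⊆ H^j(A^n) ⊗ H^b(U)` are the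
sets of the classes of algebraic cycles (over an algebraic closure of `K`) and of their Künneth
components. All the properties listed here are known. -/
structure IsCycleTheory (ρ : Representation k Γ V) (χ : Γ →* k) (n d : ℕ)
    (τ : ∀ b, Representation k Γ (M b)) (B : ∀ b b', M b →ₗ[k] M b' →ₗ[k] k)
    (ZA : ∀ j : ℕ, Set ((Fin n → V) [⋀^Fin j]→ₗ[k] k)) (ZU : ∀ b, AddSubgroup (M b))
    (Z : ∀ j b : ℕ, Set ((Fin n → V) [⋀^Fin j]→ₗ[k] M b)) : Prop where
  /-- intersection numbers on `U` are integers -/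
  integer : ∀ b b', b + b' = 2 * d → ∀ w ∈ ZU b, ∀ w' ∈ ZU b', ∃ N : ℤ, B b b' w w' = N
  /-- the product of a cycle on `A^n` and a cycle on `U` is a cycle on `A^n × U` -/
  product : ∀ {j b : ℕ} (f : (Fin n → V) [⋀^Fin j]→ₗ[k] k) (w : M b)
    (x : (Fin n → V) [⋀^Fin j]→ₗ[k] M b), f ∈ ZA j → w ∈ ZU b → (∀ v, x v = f v • w) → x ∈ Z j b
  /-- for cycles `x` on `A^n × U` and `f` on `A^n` the push-forward of `x · (f × U)` to `U` is a cycle
  (up to the factor in the definition of `integral`) -/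
  pushforward : ∀ {i j b : ℕ} (e : Basis (Fin i ⊕ Fin j) k (Fin n → V))
    (x : (Fin n → V) [⋀^Fin i]→ₗ[k] M b) (f : (Fin n → V) [⋀^Fin j]→ₗ[k] k), x ∈ Z i b → f ∈ ZA j →
    integral e (LinearMap.lsmul k (M b)).flip x f ∈ Submodule.span k (ZU b : Set (M b))
  /-- a cycle is defined over a finite extension of `K` -/
  galois : ∀ {j b : ℕ} (c : ℕ), j + b = 2 * c → ∀ x ∈ Z j b, IsTateTimes ρ χ (τ b) c x
  /-- the Tate conjecture for divisors on `A^n` (Tate, Zarhin, Mori, Faltings) -/
  divisors : ∀ {j : ℕ} (f : (Fin n → V) [⋀^Fin j]→ₗ[k] k), IsProduct ρ χ f →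
    f ∈ Submodule.span k (ZA j)
  /-- powers of an ample class on `A^n` are not zero -/
  ample : ∀ i, 2 * i ≤ finrank k (Fin n → V) → ∃ f ∈ ZA (2 * i), f ≠ 0
  /-- the Galois representation on the cohomology of `A^n` is semisimple (Tate, Zarhin, Mori,
  Faltings) -/
  semisimple : ∀ j, IsSemisimpleRep ρ n j

/-- The conjecture D for `U` and cycles of codimension `i`: the class of a cycle which is numerically
equivalent to zero is zero. -/
def ConjectureD (d : ℕ) (B : ∀ b b', M b →ₗ[k] M b' →ₗ[k] k) (ZU : ∀ b, AddSubgroup (M b))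
    (i : ℕ) : Prop :=
  ∀ b', 2 * i + b' = 2 * d → ∀ w ∈ ZU (2 * i), (∀ w' ∈ ZU b', B (2 * i) b' w w' = 0) → w = 0

/-- The Künneth formula for cycles modulo homological equivalence: the class of each cycle on `A^n × U`
is a linear combination of the classes of the products of a cycle on `A^n` and a cycle on `U`. -/
def KunnethFormula {n : ℕ} (ZA : ∀ j : ℕ, Set ((Fin n → V) [⋀^Fin j]→ₗ[k] k))
    (ZU : ∀ b, AddSubgroup (M b)) (Z : ∀ j b : ℕ, Set ((Fin n → V) [⋀^Fin j]→ₗ[k] M b)) : Prop :=
  ∀ c j b, j + b = 2 * c → ∀ x ∈ Z j b, x ∈ Submodule.span k {y | ∃ f ∈ ZA j, ∃ w ∈ ZU b,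
    ∀ v, y v = f v • w}

/-- The conjecture D for `A^n × U` and cycles of codimension `c` (for each Künneth component of the
cycle: these are numerically equivalent to zero if and only if the cycle is). -/
def ConjectureDTimes {n : ℕ} (d : ℕ) (B : ∀ b b', M b →ₗ[k] M b' →ₗ[k] k)
    (Z : ∀ j b : ℕ, Set ((Fin n → V) [⋀^Fin j]→ₗ[k] M b)) (c : ℕ) : Prop :=
  ∀ i b j b', i + b = 2 * c → i + j = finrank k (Fin n → V) → b + b' = 2 * d → ∀ x ∈ Z i b,
    (∀ (e : Basis (Fin i ⊕ Fin j) k (Fin n → V)), ∀ y ∈ Z j b', integral e (B b b') x y = 0) → x = 0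

/-- The eigenvalues of `T`, the number `c` and the number `β` satisfy only the trivial multiplicative
relations: if the `N`-th power of a product of eigenvalues `α l` of `T` is, up to powers of `c ^ N`,
equal to `β ^ N`, then for all `a`, `b` with `a * b = c` there are as many factors equal to `a` as
factors equal to `b`. -/
def OnlyTrivialRelations (T : Module.End k V) (c β : k) : Prop :=
  ∀ (m : ℕ) (α : Fin m → k) (N r r' : ℕ), 0 < N → (∀ l, T.HasEigenvalue (α l)) →
    (∏ l, α l) ^ N * c ^ (N * r) = β ^ N * c ^ (N * r') → ∀ a b : k, a * b = c →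
      Nat.card {l // α l = a} = Nat.card {l // α l = b}

/-- For each eigenvalue `a` of `T` some endomorphism of the field of coefficients fixes a positive power
of `β`, the number `c` and the characteristic polynomial of `T`, and maps `a` to `c / a`. -/
def IsConjugatedOver [FiniteDimensional k V] (T : Module.End k V) (c β : k) : Prop :=
  ∀ a : k, T.HasEigenvalue a → ∃ (σ : k →+* k) (j : ℕ), 0 < j ∧ σ (β ^ j) = β ^ j ∧ σ c = c ∧
    (LinearMap.charpoly T).map σ = LinearMap.charpoly T ∧ a * σ a = c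

end

end Pool.Agent.V1194.DT
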