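import Pool.Agent.V1194.DT.Defs

/-!
# The Poincaré dual of a Tate class is a Tate class
-/

set_option autoImplicit false
set_option linter.unusedSectionVars false

namespace Pool.Agent.V1194.DT

open Module Pool.Agent.Y137.DU

noncomputable section

section general

variable {k : Type} [Field k] [CharZero k] {W : Type} [AddCommGroup W] [Module k W]

theorem finite_alt [FiniteDimensional k W] (j : ℕ) : FiniteDimensional k (W [⋀^Fin j]→ₗ[k] k) := by
  have h : Function.Injective (AlternatingMap.toMultilinearMapLM (R := k) (M := W) (N := k)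
      (ι := Fin j) (S := k)) := fun f g h => AlternatingMap.coe_multilinearMap_injective h
  exact Module.Finite.of_injective _ h

variable {i j : ℕ} (e : Basis (Fin i ⊕ Fin j) k W)

/-- the pairing on forms -/
def pr (x : W [⋀^Fin i]→ₗ[k] k) (y : W [⋀^Fin j]→ₗ[k] k) : k :=
  integral e (LinearMap.lsmul k k).flip x y

theorem pr_eq (x : W [⋀^Fin i]→ₗ[k] k) (y : W [⋀^Fin j]→ₗ[k] k) : pr e x y = wedgeW x y e := by
  rw [wedgeW_apply]
  unfold pr integral
  refine Finset.sum_congr rfl fun σ _ => ?_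
  congr 1
  change (y fun l => e (σ (Sum.inr l))) * (x fun l => e (σ (Sum.inl l))) = _
  exact mul_comm _ _

theorem pr_add_left (x x' : W [⋀^Fin i]→ₗ[k] k) (y : W [⋀^Fin j]→ₗ[k] k) :
    pr e (x + x') y = pr e x y + pr e x' y := by
  rw [pr_eq, pr_eq, pr_eq, wedgeW_apply, wedgeW_apply, wedgeW_apply, ← Finset.sum_add_distrib]
  refine Finset.sum_congr rfl fun σ _ => ?_
  rw [AlternatingMap.add_apply, add_mul, smul_add]

theorem pr_smul_left (a : k) (x : W [⋀^Fin i]→ₗ[k] k) (y : W [⋀^Fin j]→ₗ[k] k) :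
    pr e (a • x) y = a * pr e x y := by
  rw [pr_eq, pr_eq, wedgeW_apply, wedgeW_apply, Finset.mul_sum]
  refine Finset.sum_congr rfl fun σ _ => ?_
  rw [AlternatingMap.smul_apply, smul_eq_mul, mul_smul_comm, mul_assoc]

theorem pr_add_right (x : W [⋀^Fin i]→ₗ[k] k) (y y' : W [⋀^Fin j]→ₗ[k] k) :
    pr e x (y + y') = pr e x y + pr e x y' := integral_add_right e _ x y y'

theorem pr_smul_right (a : k) (x : W [⋀^Fin i]→ₗ[k] k) (y : W [⋀^Fin j]→ₗ[k] k) :
    pr e x (a • y) = a * pr e x y := integral_smul_right e _ x a y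

/-- the pairing as a bilinear map -/
def prL : (W [⋀^Fin i]→ₗ[k] k) →ₗ[k] (W [⋀^Fin j]→ₗ[k] k) →ₗ[k] k :=
  LinearMap.mk₂ k (pr e) (pr_add_left e) (pr_smul_left e) (pr_add_right e)
    (fun a x y => by rw [pr_smul_right, smul_eq_mul])

theorem fact_ne (i j : ℕ) : ((i.factorial : k) * (j.factorial : k)) ≠ 0 :=
  mul_ne_zero (Nat.cast_ne_zero.2 (Nat.factorial_ne_zero _))
    (Nat.cast_ne_zero.2 (Nat.factorial_ne_zero _))

theorem eq_zero_left {x : W [⋀^Fin i]→ₗ[k] k} (h : ∀ y, pr e x y = 0) : x = 0 := by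
  ext v
  have h1 := integral_slot e x v
  have h2 : pr e x (slot e.det v) = 0 := h _
  unfold pr at h2
  rw [h2, smul_eq_mul] at h1
  exact (mul_eq_zero.1 h1.symm).resolve_left (fact_ne i j)

/-- the pairing with exchanged factors -/
theorem pr_swap (x : W [⋀^Fin i]→ₗ[k] k) (y : W [⋀^Fin j]→ₗ[k] k) :
    pr e x y = pr (e.reindex (Equiv.sumComm (Fin i) (Fin j))) y x := by
  rw [pr_eq, pr_eq, wedgeW_apply, wedgeW_apply,
    ← (Equiv.permCongr (Equiv.sumComm (Fin i) (Fin j))).sum_comp]
  refine Finset.sum_congr rfl fun σ _ => ?_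
  rw [Equiv.Perm.sign_permCongr, mul_comm]
  congr 2
  · congr 1
    funext l
    rw [Basis.reindex_apply, Equiv.permCongr_apply, Equiv.symm_apply_apply]
    rfl
  · congr 1
    funext l
    rw [Basis.reindex_apply, Equiv.permCongr_apply, Equiv.symm_apply_apply]
    rfl

theorem eq_zero_right {y : W [⋀^Fin j]→ₗ[k] k} (h : ∀ x, pr e x y = 0) : y = 0 := by
  refine eq_zero_left (e.reindex (Equiv.sumComm (Fin i) (Fin j))) fun x => ?_
  rw [← pr_swap]
  exact h x

/-- every linear functional is given by a form -/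
theorem exists_form (φ : (W [⋀^Fin i]→ₗ[k] k) →ₗ[k] k) : ∃ y, ∀ x, pr e x y = φ x := by
  have : FiniteDimensional k W := Module.Finite.of_basis e
  have : FiniteDimensional k (W [⋀^Fin i]→ₗ[k] k) := finite_alt i
  have h1 : Function.Injective (prL e) := by
    rw [injective_iff_map_eq_zero]
    intro x hx
    refine eq_zero_left e fun y => ?_
    have := LinearMap.congr_fun hx y
    exact this
  obtain ⟨y, hy⟩ := (LinearMap.flip_surjective_iff₁.2 h1) φ
  exact ⟨y, fun x => LinearMap.congr_fun hy x⟩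

/-- equivariance of the pairing -/
theorem pr_comp (R : W →ₗ[k] W) (x : W [⋀^Fin i]→ₗ[k] k) (y : W [⋀^Fin j]→ₗ[k] k) :
    pr e (x.compLinearMap R) (y.compLinearMap R) = LinearMap.det R * pr e x y := by
  have h1 : wedgeW (x.compLinearMap R) (y.compLinearMap R) e = wedgeW x y (R ∘ e) := by
    rw [wedgeW_apply, wedgeW_apply]
    rfl
  rw [pr_eq, pr_eq, h1, AlternatingMap.eq_smul_basis_det e (wedgeW x y)]
  rw [AlternatingMap.smul_apply, AlternatingMap.smul_apply, smul_eq_mul, smul_eq_mul,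
    Basis.det_comp, Basis.det_self]
  ring

end general

section galois

variable {k : Type} [Field k] [CharZero k] {V : Type} [AddCommGroup V] [Module k V]
  [FiniteDimensional k V] {Γ : Type} [Group Γ] (ρ : Representation k Γ V) (χ : Γ →* k)

theorem act_one (n : ℕ) : act ρ n 1 = LinearMap.id := by
  ext v i
  change ρ 1 _ = _
  rw [map_one]
  rfl

theorem act_mul (n : ℕ) (s t : Γ) : act ρ n (s * t) = (act ρ n s).comp (act ρ n t) := by
  refine LinearMap.ext fun v => funext fun i => ?_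
  change ρ (s * t) (v i) = ρ s (ρ t (v i))
  rw [map_mul]
  rfl

theorem act_inv (n : ℕ) (s : Γ) (v : Fin n → V) : act ρ n s (act ρ n s⁻¹ v) = v := by
  have h := act_mul ρ n s s⁻¹
  rw [mul_inv_cancel, act_one] at h
  exact (LinearMap.congr_fun h v).symm

/-- the square of the determinant -/
theorem det_sq (ω : V →ₗ[k] V →ₗ[k] k) (hnd : ∀ u, (∀ v, ω v u = 0) → u = 0)
    (hω : ∀ s u v, ω (ρ s u) (ρ s v) = χ s * ω u v) (n : ℕ) (s : Γ) :
    LinearMap.det (act ρ n s) ^ 2 = χ s ^ finrank k (Fin n → V) := by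
  classical
  obtain ⟨ωW, hW⟩ : ∃ ωW : LinearMap.BilinForm k (Fin n → V),
      ∀ x y, ωW x y = ∑ i, ω (x i) (y i) := by
    refine ⟨∑ i, (ω.compl₁₂ (LinearMap.proj i) (LinearMap.proj i)), fun x y => ?_⟩
    rw [LinearMap.sum_apply, LinearMap.sum_apply]
    rfl
  let b := Module.finBasis k (Fin n → V)
  have h0 : (LinearMap.BilinForm.toMatrix b ωW).det ≠ 0 := by
    intro h
    obtain ⟨v, hv, h1⟩ := Matrix.exists_mulVec_eq_zero_iff.2 h
    apply hv
    obtain ⟨y, hy⟩ : ∃ y : Fin n → V, y = ∑ a, v a • b a := ⟨_, rfl⟩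
    have h2 : ∀ x, ωW x y = 0 := by
      intro x
      have h3 : ∀ c, ωW (b c) y = 0 := by
        intro c
        have h4 := congrFun h1 c
        rw [Matrix.mulVec, dotProduct] at h4
        rw [hy, map_sum]
        rw [Pi.zero_apply] at h4
        rw [← h4]
        refine Finset.sum_congr rfl fun a _ => ?_
        rw [map_smul, smul_eq_mul, mul_comm, LinearMap.BilinForm.toMatrix_apply]
      have h8 : ωW (∑ c, b.repr x c • b c) y = 0 := by
        rw [map_sum, LinearMap.sum_apply]
        refine Finset.sum_eq_zero fun c _ => ?_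
        rw [map_smul, LinearMap.smul_apply, h3, smul_zero]
      rwa [b.sum_repr x] at h8
    have h5 : y = 0 := by
      funext i
      refine hnd _ fun u => ?_
      have h6 := h2 (Pi.single i u)
      rw [hW, Finset.sum_eq_single i] at h6
      · rwa [Pi.single_eq_same] at h6
      · intro l _ hl
        rw [Pi.single_eq_of_ne hl, map_zero, LinearMap.zero_apply]
      · intro h; exact absurd (Finset.mem_univ i) h
    have h7 := b.linearIndependent
    rw [Fintype.linearIndependent_iff] at h7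
    funext a
    exact h7 v (by rw [← hy, h5]) a
  have h1 : ωW.comp (act ρ n s) (act ρ n s) = χ s • ωW := by
    refine LinearMap.ext fun x => LinearMap.ext fun y => ?_
    change ωW (act ρ n s x) (act ρ n s y) = χ s * ωW x y
    rw [hW, hW, Finset.mul_sum]
    exact Finset.sum_congr rfl fun i _ => hω s _ _
  have h2 : (LinearMap.BilinForm.toMatrix b (ωW.comp (act ρ n s) (act ρ n s))).det =
      (LinearMap.BilinForm.toMatrix b (χ s • ωW)).det := by rw [h1]
  rw [LinearMap.BilinForm.toMatrix_comp b b, Matrix.det_mul, Matrix.det_mul, Matrix.det_transpose,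
    LinearMap.det_toMatrix, map_smul, Matrix.det_smul, Fintype.card_fin] at h2
  have h3 : (LinearMap.det (act ρ n s) ^ 2 - χ s ^ finrank k (Fin n → V)) *
      (LinearMap.BilinForm.toMatrix b ωW).det = 0 := by
    rw [sub_mul, ← h2]
    ring
  exact sub_eq_zero.1 ((mul_eq_zero.1 h3).resolve_right h0)

theorem chi_ne_zero (s : Γ) : χ s ≠ 0 := by
  intro h
  have h1 : χ (s * s⁻¹) = 1 := by rw [mul_inv_cancel, map_one]
  rw [map_mul, h, zero_mul] at h1
  exact zero_ne_one h1

/-- a subgroup of finite index on which the determinant is a power of `χ` -/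
theorem exists_det (ω : V →ₗ[k] V →ₗ[k] k) (hnd : ∀ u, (∀ v, ω v u = 0) → u = 0)
    (hω : ∀ s u v, ω (ρ s u) (ρ s v) = χ s * ω u v) (n N : ℕ)
    (hN : finrank k (Fin n → V) = 2 * N) :
    ∃ Δ : Subgroup Γ, Δ.FiniteIndex ∧ ∀ s ∈ Δ, LinearMap.det (act ρ n s) = χ s ^ N := by
  let D : Γ →* k :=
    { toFun := fun s => LinearMap.det (act ρ n s)
      map_one' := by rw [act_one, LinearMap.det_id]
      map_mul' := fun s t => by rw [act_mul, LinearMap.det_comp] }
  let X : Γ →* k := (powMonoidHom N).comp χ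
  have hD0 : ∀ s, X s ≠ 0 := fun s => pow_ne_zero _ (chi_ne_zero χ s)
  let Q : Γ →* k :=
    { toFun := fun s => D s / X s
      map_one' := by rw [map_one, map_one, div_one]
      map_mul' := fun s t => by rw [map_mul, map_mul, mul_div_mul_comm] }
  have hQ : ∀ s, Q s = 1 ∨ Q s = -1 := by
    intro s
    rw [← mul_self_eq_one_iff]
    change D s / X s * (D s / X s) = 1
    rw [div_mul_div_comm, div_eq_one_iff_eq (mul_ne_zero (hD0 s) (hD0 s)), ← sq]
    have h1 := det_sq ρ χ ω hnd hω n s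
    rw [hN] at h1
    change LinearMap.det (act ρ n s) ^ 2 = χ s ^ N * χ s ^ N
    rw [h1, two_mul, pow_add]
  let Qu : Γ →* kˣ := Q.toHomUnits
  have hfin : Finite Qu.range := by
    have h1 : (Qu.range : Set kˣ) ⊆ {1, -1} := by
      rintro _ ⟨s, rfl⟩
      rcases hQ s with h | h
      · left
        exact Units.ext h
      · right
        exact Units.ext h
    exact (Set.toFinite ({1, -1} : Set kˣ)).subset h1
  refine ⟨Qu.ker, Subgroup.finiteIndex_ker Qu, fun s hs => ?_⟩
  have h1 : Q s = 1 := by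
    have h2 : Qu s = 1 := hs
    exact congrArg Units.val h2
  change D s / X s = 1 at h1
  rw [div_eq_one_iff_eq (hD0 s)] at h1
  exact h1

/-- **The Poincaré dual of a Tate class.** If the Galois representation on `H^i(A^n)` is semisimple,
then each Tate class `f ≠ 0` has intersection number one with a Tate class of complementary degree. -/
theorem exists_dual (ω : V →ₗ[k] V →ₗ[k] k) (hnd : ∀ u, (∀ v, ω v u = 0) → u = 0)
    (hω : ∀ s u v, ω (ρ s u) (ρ s v) = χ s * ω u v) {n m m' i j : ℕ}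
    (hN : finrank k (Fin n → V) = 2 * (m + m')) (e : Basis (Fin i ⊕ Fin j) k (Fin n → V))
    (hs : IsSemisimpleRep ρ n i) {f : (Fin n → V) [⋀^Fin i]→ₗ[k] k} (hf : IsTate ρ χ m f)
    (hf0 : f ≠ 0) : ∃ g : (Fin n → V) [⋀^Fin j]→ₗ[k] k, IsTate ρ χ m' g ∧ pr e f g ≠ 0 := by
  obtain ⟨Δ, hΔ, hf⟩ := hf
  obtain ⟨Δ', hΔ', hdet⟩ := exists_det ρ χ ω hnd hω n (m + m') hN
  have hfs : ∀ s ∈ Δ, f.compLinearMap (act ρ n s) = χ s ^ m • f := by
    intro s hs
    ext v
    exact hf s hs v
  obtain ⟨S', hS', hc⟩ := hs Δ hΔ (Submodule.span k {f}) (by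
    intro s hs x hx
    obtain ⟨a, rfl⟩ := Submodule.mem_span_singleton.1 hx
    have h1 : (a • f).compLinearMap (act ρ n s) = (a * χ s ^ m) • f := by
      rw [mul_smul, ← hfs s hs]
      rfl
    rw [h1]
    exact Submodule.smul_mem _ _ (Submodule.mem_span_singleton_self f))
  -- the linear functional
  obtain ⟨φ, hφf, hφS⟩ : ∃ φ : ((Fin n → V) [⋀^Fin i]→ₗ[k] k) →ₗ[k] k, φ f = 1 ∧
      ∀ x ∈ S', φ x = 0 := by
    have hfS : f ∉ S' := by
      intro h
      apply hf0
      have h1 : f ∈ (Submodule.span k {f}) ⊓ S' := ⟨Submodule.mem_span_singleton_self f, h⟩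
      rw [hc.inf_eq_bot] at h1
      exact (Submodule.mem_bot k).1 h1
    obtain ⟨φ, h1, h2⟩ := Submodule.exists_dual_map_eq_bot_of_notMem hfS inferInstance
    have h3 : ∀ x ∈ S', φ x = 0 := by
      intro x hx
      have h4 : φ x ∈ S'.map φ := Submodule.mem_map_of_mem hx
      rw [h2] at h4
      exact (Submodule.mem_bot k).1 h4
    refine ⟨(φ f)⁻¹ • φ, ?_, fun x hx => ?_⟩
    · rw [LinearMap.smul_apply, smul_eq_mul, inv_mul_cancel₀ h1]
    · rw [LinearMap.smul_apply, h3 x hx, smul_zero]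
  have hφ : ∀ s ∈ Δ, ∀ x, φ (x.compLinearMap (act ρ n s)) = χ s ^ m * φ x := by
    intro s hs x
    obtain ⟨y, hy, z, hz, rfl⟩ : ∃ y ∈ Submodule.span k {f}, ∃ z ∈ S', y + z = x := by
      have h1 : x ∈ Submodule.span k {f} ⊔ S' := by
        rw [hc.sup_eq_top]
        exact Submodule.mem_top
      exact Submodule.mem_sup.1 h1
    obtain ⟨a, rfl⟩ := Submodule.mem_span_singleton.1 hy
    have h1 : (a • f + z).compLinearMap (act ρ n s) =
        a • (χ s ^ m • f) + z.compLinearMap (act ρ n s) := by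
      rw [← hfs s hs]
      rfl
    rw [h1, map_add, map_add, map_smul, map_smul, map_smul, hφf, hφS _ (hS' s hs z hz),
      hφS z hz, smul_eq_mul, smul_eq_mul, smul_eq_mul]
    ring
  obtain ⟨g, hg⟩ := exists_form e φ
  refine ⟨g, ⟨Δ ⊓ Δ', inferInstance, fun s hs v => ?_⟩, by rw [hg, hφf]; exact one_ne_zero⟩
  have hs1 : s ∈ Δ := hs.1
  have hχ := chi_ne_zero χ s
  have h1 : g.compLinearMap (act ρ n s) - χ s ^ m' • g = 0 := by
    refine eq_zero_right e fun x => ?_
    -- `x` is in the image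
    have h2 : (x.compLinearMap (act ρ n s⁻¹)).compLinearMap (act ρ n s) = x := by
      ext v
      change x (fun l => act ρ n s⁻¹ (act ρ n s (v l))) = x v
      congr 1
      funext l
      have h3 := act_inv ρ n s⁻¹ (v l)
      rwa [inv_inv] at h3
    have h3 := pr_comp e (act ρ n s) (x.compLinearMap (act ρ n s⁻¹)) g
    have h4 := hφ s hs1 (x.compLinearMap (act ρ n s⁻¹))
    rw [h2, ← hg, ← hg] at h4
    rw [h2, hdet s hs.2] at h3
    have h5 : pr e x (g.compLinearMap (act ρ n s) - χ s ^ m' • g) =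
        pr e x (g.compLinearMap (act ρ n s)) - χ s ^ m' * pr e x g := by
      have h6 : g.compLinearMap (act ρ n s) - χ s ^ m' • g =
          g.compLinearMap (act ρ n s) + (-(χ s ^ m')) • g := by
        ext v
        change _ - χ s ^ m' * g v = _ + -(χ s ^ m') * g v
        ring
      rw [h6, pr_add_right, pr_smul_right]
      ring
    rw [h5, h3, h4, pow_add]
    ring
  have h2 := congrArg (fun F : (Fin n → V) [⋀^Fin j]→ₗ[k] k => F v) (sub_eq_zero.1 h1)
  exact h2

end galois

end

end Pool.Agent.V1194.DT
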