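import Pool.Agent.Y137.DU.Wedge

/-!
# Linear algebra (the contents of `Pool.Agent.Y137.DU.Lin`, without its imports)
-/

set_option autoImplicit false
set_option linter.unusedSectionVars false
set_option linter.unusedVariables false

namespace Pool.Agent.V1194.DT

open Module Pool.Agent.Y137.DU
open scoped TensorProduct

noncomputable section

/-- Let `T` be the Tate module of an abelian variety `Y`, with a basis `e`, let `x` and `y` be alternating
maps in `k` and `j` variables from `T` to `M` and `M'` (that is, elements of `H^k(Y) ⊗ M` and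
`H^j(Y) ⊗ M'`), where `k + j = 2 dim Y` is the rank of `T`, and let `B : M × M' → N` be bilinear. This
is the integral over `Y` of the exterior product of `x` and `y`, with values in `N`, up to a constant
factor which only depends on `k`, `j` and `e`. -/
def integral {Ω T M M' N : Type} [Field Ω] [AddCommGroup T] [Module Ω T] [AddCommGroup M]
    [Module Ω M] [AddCommGroup M'] [Module Ω M'] [AddCommGroup N] [Module Ω N] {k j : ℕ}
    (e : Basis (Fin k ⊕ Fin j) Ω T) (B : M →ₗ[Ω] M' →ₗ[Ω] N) (x : T [⋀^Fin k]→ₗ[Ω] M)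
    (y : T [⋀^Fin j]→ₗ[Ω] M') : N :=
  ∑ σ : Equiv.Perm (Fin k ⊕ Fin j), (Equiv.Perm.sign σ : ℤ) •
    B (x fun l => e (σ (Sum.inl l))) (y fun l => e (σ (Sum.inr l)))


section general

variable {Ω T M M' N N' : Type} [Field Ω] [AddCommGroup T] [Module Ω T] [AddCommGroup M]
  [Module Ω M] [AddCommGroup M'] [Module Ω M'] [AddCommGroup N] [Module Ω N] [AddCommGroup N']
  [Module Ω N'] {k j : ℕ} (e : Basis (Fin k ⊕ Fin j) Ω T)

theorem integral_slot (x : T [⋀^Fin k]→ₗ[Ω] M) (v : Fin k → T) :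
    integral e (LinearMap.lsmul Ω M).flip x (slot e.det v) =
      ((k.factorial : Ω) * (j.factorial : Ω)) • x v := by
  rw [← sub_eq_zero, ← Module.forall_dual_apply_eq_zero_iff Ω]
  intro h
  have h1 := wedge_slot e (h.compAlternatingMap x) v
  rw [wedgeW_apply] at h1
  rw [map_sub, map_smul, sub_eq_zero, smul_eq_mul]
  refine Eq.trans ?_ h1
  unfold integral
  rw [map_sum]
  refine Finset.sum_congr rfl fun σ _ => ?_
  rw [map_zsmul]
  congr 1
  change h (slot e.det v _ • x _) = _
  rw [map_smul, smul_eq_mul, mul_comm]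
  rfl

theorem integral_add_right (B : M →ₗ[Ω] M' →ₗ[Ω] N) (x : T [⋀^Fin k]→ₗ[Ω] M)
    (y y' : T [⋀^Fin j]→ₗ[Ω] M') :
    integral e B x (y + y') = integral e B x y + integral e B x y' := by
  unfold integral
  rw [← Finset.sum_add_distrib]
  refine Finset.sum_congr rfl fun σ _ => ?_
  rw [AlternatingMap.add_apply, map_add, smul_add]

theorem integral_smul_right (B : M →ₗ[Ω] M' →ₗ[Ω] N) (x : T [⋀^Fin k]→ₗ[Ω] M) (a : Ω)
    (y : T [⋀^Fin j]→ₗ[Ω] M') : integral e B x (a • y) = a • integral e B x y := by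
  unfold integral
  rw [Finset.smul_sum]
  refine Finset.sum_congr rfl fun σ _ => ?_
  rw [AlternatingMap.smul_apply, map_smul, smul_comm]

theorem integral_mem (B : M →ₗ[Ω] M' →ₗ[Ω] N) (x : T [⋀^Fin k]→ₗ[Ω] M) (P : Submodule Ω N)
    {S : Set (T [⋀^Fin j]→ₗ[Ω] M')} (h : ∀ y ∈ S, integral e B x y ∈ P)
    {y : T [⋀^Fin j]→ₗ[Ω] M'} (hy : y ∈ Submodule.span Ω S) : integral e B x y ∈ P := by
  induction hy using Submodule.span_induction with
  | mem y hy => exact h y hy
  | zero =>
    have h1 := integral_smul_right e B x (0 : Ω) (0 : T [⋀^Fin j]→ₗ[Ω] M')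
    rw [zero_smul, zero_smul] at h1
    rw [h1]
    exact P.zero_mem
  | add y y' _ _ h1 h2 =>
    rw [integral_add_right]
    exact P.add_mem h1 h2
  | smul a y _ h1 =>
    rw [integral_smul_right]
    exact P.smul_mem _ h1

/-- The integral against a product class. -/
theorem integral_product (B : M →ₗ[Ω] M' →ₗ[Ω] N) (x : T [⋀^Fin k]→ₗ[Ω] M)
    (f : T [⋀^Fin j]→ₗ[Ω] Ω) (w : M') (y : T [⋀^Fin j]→ₗ[Ω] M') (hy : ∀ v, y v = f v • w) :
    integral e B x y = B (integral e (LinearMap.lsmul Ω M).flip x f) w := by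
  unfold integral
  rw [map_sum, LinearMap.sum_apply]
  refine Finset.sum_congr rfl fun σ _ => ?_
  rw [hy, map_smul, map_zsmul, LinearMap.smul_apply]
  congr 1
  change _ = B (f _ • x _) w
  rw [map_smul, LinearMap.smul_apply]

/-- The integral of a product class. -/
theorem product_integral (B : M →ₗ[Ω] M' →ₗ[Ω] N) (f : T [⋀^Fin k]→ₗ[Ω] Ω) (w : M)
    (x : T [⋀^Fin k]→ₗ[Ω] M) (hx : ∀ v, x v = f v • w) (y : T [⋀^Fin j]→ₗ[Ω] M') :
    integral e B x y = B w (integral (e.reindex (Equiv.sumComm (Fin k) (Fin j)))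
      (LinearMap.lsmul Ω M').flip y f) := by
  unfold integral
  rw [map_sum, ← (Equiv.permCongr (Equiv.sumComm (Fin k) (Fin j))).sum_comp]
  refine Finset.sum_congr rfl fun σ _ => ?_
  rw [Equiv.Perm.sign_permCongr, map_zsmul, hx]
  congr 1
  change B (f _ • w) (y _) = B w (f _ • y _)
  rw [map_smul, LinearMap.smul_apply, map_smul]
  congr 1
  · congr 1
    funext l
    rw [Basis.reindex_apply, Equiv.permCongr_apply, Equiv.symm_apply_apply]
    rfl
  · congr 2
    funext l
    rw [Basis.reindex_apply, Equiv.permCongr_apply, Equiv.symm_apply_apply]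
    rfl

end general

section rational

variable {Ω M M' : Type} [Field Ω] [CharZero Ω] [AddCommGroup M] [Module Ω M] [AddCommGroup M']
  [Module Ω M']

theorem exists_mul (Z : AddSubgroup M) (r : M → ℚ) (s : Finset M) (hs : ∀ z ∈ s, z ∈ Z) :
    ∃ D : ℕ, 0 < D ∧ (D : Ω) • ∑ z ∈ s, ((r z : ℚ) : Ω) • z ∈ Z := by
  classical
  induction s using Finset.induction_on with
  | empty => exact ⟨1, one_pos, by rw [Finset.sum_empty, smul_zero]; exact Z.zero_mem⟩
  | insert a s ha ih =>
    obtain ⟨D, hD, h⟩ := ih fun z hz => hs z (Finset.mem_insert_of_mem hz)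
    refine ⟨D * (r a).den, Nat.mul_pos hD (r a).den_pos, ?_⟩
    rw [Finset.sum_insert ha, smul_add]
    refine Z.add_mem ?_ ?_
    · have h1 : (((D * (r a).den : ℕ) : Ω)) • (((r a : ℚ) : Ω) • a) =
          ((D : ℤ) * (r a).num) • a := by
        rw [smul_smul]
        have h2 : ((r a : ℚ) : Ω) * ((r a).den : Ω) = ((r a).num : Ω) := by
          have := Rat.mul_den_eq_num (r a)
          exact_mod_cast congrArg (fun q : ℚ => (q : Ω)) this
        have h3 : ((D * (r a).den : ℕ) : Ω) * ((r a : ℚ) : Ω) = (((D : ℤ) * (r a).num : ℤ) : Ω) := by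
          push_cast
          rw [← h2]
          ring
        rw [h3, Int.cast_smul_eq_zsmul]
      rw [h1]
      exact Z.zsmul_mem (hs a (Finset.mem_insert_self a s)) _
    · have h1 : (((D * (r a).den : ℕ) : Ω)) • ∑ z ∈ s, ((r z : ℚ) : Ω) • z =
          (r a).den • ((D : Ω) • ∑ z ∈ s, ((r z : ℚ) : Ω) • z) := by
        rw [Nat.cast_mul, mul_comm, mul_smul, Nat.cast_smul_eq_nsmul]
      rw [h1]
      exact Z.nsmul_mem h _

/-- If a numerically trivial element of `Z` is zero then so is a numerically trivial element of the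
span. -/
theorem eq_zero_of_span (B : M →ₗ[Ω] M' →ₗ[Ω] Ω) (Z : AddSubgroup M) (Z' : Set M')
    (hint : ∀ w ∈ Z, ∀ w' ∈ Z', ∃ n : ℤ, B w w' = n)
    (hD : ∀ w ∈ Z, (∀ w' ∈ Z', B w w' = 0) → w = 0)
    {x : M} (hx : x ∈ Submodule.span Ω (Z : Set M)) (h0 : ∀ w' ∈ Z', B x w' = 0) : x = 0 := by
  classical
  obtain ⟨c, s, hs, -, rfl⟩ := Submodule.mem_span_iff_exists_finset_subset.1 hx
  let β := Basis.ofVectorSpace ℚ Ω
  set T := s.biUnion (fun z => (β.repr (c z)).support) with hT
  let u : Basis.ofVectorSpaceIndex ℚ Ω → M := fun i => ∑ z ∈ s, (((β.repr (c z) i : ℚ)) : Ω) • z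
  have hc : ∀ z ∈ s, c z = ∑ i ∈ T, (((β.repr (c z) i : ℚ)) : Ω) * β i := by
    intro z hz
    have h1 := β.linearCombination_repr (c z)
    rw [Finsupp.linearCombination_apply, Finsupp.sum] at h1
    have h2 : ∑ i ∈ (β.repr (c z)).support, (β.repr (c z) i) • β i =
        ∑ i ∈ T, (β.repr (c z) i) • β i := by
      refine Finset.sum_subset ?_ ?_
      · intro i hi
        exact Finset.mem_biUnion.2 ⟨z, hz, hi⟩
      · intro i _ hi
        rw [Finsupp.notMem_support_iff.1 hi, zero_smul]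
    rw [h2] at h1
    conv_lhs => rw [← h1]
    refine Finset.sum_congr rfl fun i _ => ?_
    rw [Rat.smul_def]
  have hsum : ∑ z ∈ s, c z • z = ∑ i ∈ T, β i • u i := by
    have h1 : ∑ z ∈ s, c z • z = ∑ z ∈ s, ∑ i ∈ T, (((β.repr (c z) i : ℚ)) : Ω) • (β i • z) := by
      refine Finset.sum_congr rfl fun z hz => ?_
      conv_lhs => rw [hc z hz]
      rw [Finset.sum_smul]
      refine Finset.sum_congr rfl fun i _ => ?_
      rw [mul_smul]
    rw [h1, Finset.sum_comm]
    refine Finset.sum_congr rfl fun i _ => ?_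
    rw [Finset.smul_sum]
    refine Finset.sum_congr rfl fun z _ => ?_
    rw [smul_comm]
  have hrat : ∀ i, ∀ w' ∈ Z', ∃ r : ℚ, B (u i) w' = (r : Ω) := by
    intro i w' hw'
    choose! n hn using fun z (hz : z ∈ s) => hint z (hs hz) w' hw'
    refine ⟨∑ z ∈ s, (β.repr (c z) i) * n z, ?_⟩
    change B (∑ z ∈ s, _) w' = _
    rw [map_sum, LinearMap.sum_apply]
    push_cast
    refine Finset.sum_congr rfl fun z hz => ?_
    rw [map_smul, LinearMap.smul_apply, hn z hz, smul_eq_mul]
  have hzero : ∀ i ∈ T, ∀ w' ∈ Z', B (u i) w' = 0 := by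
    intro i hi w' hw'
    choose r hr using fun i => hrat i w' hw'
    have h1 := h0 w' hw'
    rw [hsum, map_sum, LinearMap.sum_apply] at h1
    have h2 : ∑ i ∈ T, r i • β i = 0 := by
      rw [← h1]
      refine Finset.sum_congr rfl fun i _ => ?_
      rw [map_smul, LinearMap.smul_apply, hr i, smul_eq_mul, Rat.smul_def, mul_comm]
    have h3 := linearIndependent_iff'.1 β.linearIndependent T r h2 i hi
    rw [hr i, h3, Rat.cast_zero]
  rw [hsum]
  refine Finset.sum_eq_zero fun i hi => ?_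
  obtain ⟨D, hD0, hDZ⟩ := exists_mul (Ω := Ω) Z (fun z => β.repr (c z) i) s fun z hz => hs hz
  have h4 : (D : Ω) • u i = 0 := by
    refine hD _ hDZ fun w' hw' => ?_
    change B ((D : Ω) • u i) w' = 0
    rw [map_smul, LinearMap.smul_apply, hzero i hi w' hw', smul_zero]
  rcases smul_eq_zero.1 h4 with h5 | h5
  · exact absurd h5 (Nat.cast_ne_zero.2 hD0.ne')
  · rw [h5, smul_zero]

end rational

end

end Pool.Agent.V1194.DT
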