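import Pool.Agent.V1194.DT.Split
import Pool.Agent.V1141.OF.Times5

/-!
# The conjecture D for the product of a power of an abelian variety and an arbitrary variety
-/

set_option autoImplicit false
set_option linter.unusedSectionVars false

namespace Pool.Agent.V1194.DT

open Module Pool.Agent.V1141.OF Pool.Agent.Y137.DU

noncomputable section

section relations

variable {k : Type} [Field k] [CharZero k] {V : Type} [AddCommGroup V] [Module k V]
  [FiniteDimensional k V] {Γ : Type} [Group Γ] (ρ : Representation k Γ V) (χ : Γ →* k) (γ : Γ)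

theorem rel_iff {β : k} (h : OnlyTrivialRelations (ρ γ) (χ γ) β) :
    Pool.Agent.V1141.OF.OnlyTrivialRelations (V := fun _ : Unit => V) (fun _ => ρ) χ (fun _ => 0)
      γ β := by
  intro n t α N r r' hN hα hrel i a b hab
  have h1 := h n α N r r' hN hα hrel a b (by
    refine hab.trans ?_
    change χ γ ^ (2 * 0 + 1) = χ γ
    rw [mul_zero, zero_add, pow_one])
  have h2 : ∀ c : k, Nat.card {l // t l = i ∧ α l = c} = Nat.card {l // α l = c} := fun c =>
    Nat.card_congr (Equiv.subtypeEquiv (Equiv.refl _) fun l =>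
      ⟨fun h => h.2, fun h => ⟨Subsingleton.elim _ _, h⟩⟩)
  rw [h2, h2]
  exact h1

theorem conj_iff {β : k} (h : IsConjugatedOver (ρ γ) (χ γ) β) :
    ConjugatedOver (V := fun _ : Unit => V) (fun _ => ρ) χ (fun _ => 0) γ β := by
  intro i a ha
  obtain ⟨σ, j, hj, h1, h2, h3, h4⟩ := h a ha
  refine ⟨σ, j, hj, h1, h2, fun _ => h3, ?_⟩
  refine h4.trans ?_
  change _ = χ γ ^ (2 * 0 + 1)
  rw [mul_zero, zero_add, pow_one]

theorem rel_shift {β : k} (c : ℕ)
    (h : Pool.Agent.V1141.OF.OnlyTrivialRelations (V := fun _ : Unit => V) (fun _ => ρ) χ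
      (fun _ => 0) γ β) :
    Pool.Agent.V1141.OF.OnlyTrivialRelations (V := fun _ : Unit => V) (fun _ => ρ) χ (fun _ => 0)
      γ (χ γ ^ c * β) := by
  intro n t α N r r' hN hα hrel i a b hab
  refine h n t α N r (r' + c) hN hα (hrel.trans ?_) i a b hab
  rw [mul_pow, ← pow_mul, mul_add, pow_add, mul_comm c N]
  ring

variable {M : Type} [AddCommGroup M] [Module k M]

theorem eigen_tw (τ : Representation k Γ M) (c : ℕ) {β : k}
    (h : Module.End.HasEigenvalue (tw χ c τ γ) β) :
    ∃ β₀, Module.End.HasEigenvalue (τ γ) β₀ ∧ β = χ γ ^ c * β₀ := by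
  have hc : χ γ ^ c ≠ 0 := pow_ne_zero _ (chi_ne_zero χ γ)
  obtain ⟨v, hv⟩ := h.exists_hasEigenvector
  refine ⟨(χ γ ^ c)⁻¹ * β, ?_, by rw [← mul_assoc, mul_inv_cancel₀ hc, one_mul]⟩
  refine Module.End.hasEigenvalue_of_hasEigenvector (x := v) ⟨?_, hv.2⟩
  rw [Module.End.mem_eigenspace_iff]
  have h1 : χ γ ^ c • τ γ v = β • v := hv.apply_eq_smul
  rw [mul_smul, ← h1, smul_smul, inv_mul_cancel₀ hc, one_smul]

/-- the classes split -/
theorem splits [IsAlgClosed k] [FiniteDimensional k M] (τ : Representation k Γ M) (c : ℕ)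
    (ω : V →ₗ[k] V →ₗ[k] k) (halt : ∀ v, ω v v = 0) (hnd : ∀ u, (∀ v, ω v u = 0) → u = 0)
    (hω : ∀ s u v, ω (ρ s u) (ρ s v) = χ s * ω u v)
    (hsep : (LinearMap.charpoly (ρ γ)).Separable) (hrel : OnlyTrivialRelations (ρ γ) (χ γ) 1)
    (hM : ∀ β, Module.End.HasEigenvalue (τ γ) β →
      OnlyTrivialRelations (ρ γ) (χ γ) β ∨ IsConjugatedOver (ρ γ) (χ γ) β) :
    TateClassesSplit (V := fun _ : Unit => V) (fun _ => ρ) (tw χ c τ) χ (fun _ => 0) := by
  have hω' : ∀ (i : Unit) s u v, ω (ρ s u) (ρ s v) = χ s ^ (2 * (fun _ : Unit => 0) i + 1) *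
      ω u v := by
    intro i s u v
    rw [hω]
    change _ = χ s ^ (2 * 0 + 1) * _
    rw [mul_zero, zero_add, pow_one]
  refine times_main (V := fun _ : Unit => V) (fun _ => ρ) (tw χ c τ) χ (fun _ => 0) (fun _ => ω)
    (fun _ => halt) (fun _ => hnd) hω' γ (fun _ => hsep) (rel_iff ρ χ γ hrel) fun β hβ => ?_
  obtain ⟨β₀, hβ₀, rfl⟩ := eigen_tw χ γ τ c hβ
  refine rel_shift ρ χ γ c ?_
  rcases hM β₀ hβ₀ with h | h
  · exact rel_iff ρ χ γ h
  · exact onlyTrivial_of_conj (V := fun _ : Unit => V) (fun _ => ρ) χ (fun _ => 0) (fun _ => ω)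
      (fun _ => hnd) hω' (rel_iff ρ χ γ hrel) (conj_iff ρ χ γ h)

end relations

section tensors

variable {k : Type} [Field k] [CharZero k] {W : Type} [AddCommGroup W] [Module k W]
  {M : Type} [AddCommGroup M] [Module k M] {i j : ℕ}

theorem tens_add_left (f f' : W [⋀^Fin j]→ₗ[k] k) (w : M) :
    tens (f + f') w = tens f w + tens f' w := by
  ext v
  rw [AlternatingMap.add_apply, tens_apply, tens_apply, tens_apply, AlternatingMap.add_apply,
    add_smul]

theorem tens_smul_left (a : k) (f : W [⋀^Fin j]→ₗ[k] k) (w : M) :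
    tens (a • f) w = a • tens f w := by
  ext v
  rw [AlternatingMap.smul_apply, tens_apply, tens_apply, AlternatingMap.smul_apply, smul_assoc]

theorem tens_add_right (f : W [⋀^Fin j]→ₗ[k] k) (w w' : M) :
    tens f (w + w') = tens f w + tens f w' := by
  ext v
  rw [AlternatingMap.add_apply, tens_apply, tens_apply, tens_apply, smul_add]

theorem tens_smul_right (a : k) (f : W [⋀^Fin j]→ₗ[k] k) (w : M) :
    tens f (a • w) = a • tens f w := by
  ext v
  rw [AlternatingMap.smul_apply, tens_apply, tens_apply, smul_comm]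

theorem tens_zero_left (w : M) : tens (0 : W [⋀^Fin j]→ₗ[k] k) w = 0 := by
  ext v
  rw [tens_apply]
  exact zero_smul _ _

theorem tens_zero_right (f : W [⋀^Fin j]→ₗ[k] k) : tens f (0 : M) = 0 := by
  ext v
  rw [tens_apply, smul_zero]
  rfl

theorem tens_sum_left {ι : Type} (s : Finset ι) (F : ι → W [⋀^Fin j]→ₗ[k] k) (w : M) :
    tens (∑ a ∈ s, F a) w = ∑ a ∈ s, tens (F a) w := by
  classical
  induction s using Finset.induction_on with
  | empty => rw [Finset.sum_empty, Finset.sum_empty]; exact tens_zero_left w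
  | insert a s ha ih => rw [Finset.sum_insert ha, Finset.sum_insert ha, tens_add_left, ih]

/-- products of elements of spans -/
theorem tens_mem {SA : Set (W [⋀^Fin j]→ₗ[k] k)} {SU : Set M} {P : Submodule k (W [⋀^Fin j]→ₗ[k] M)}
    (hP : ∀ f ∈ SA, ∀ w ∈ SU, tens f w ∈ P) {f : W [⋀^Fin j]→ₗ[k] k} (hf : f ∈ Submodule.span k SA)
    {w : M} (hw : w ∈ Submodule.span k SU) : tens f w ∈ P := by
  induction hf using Submodule.span_induction with
  | mem f hf =>
    induction hw using Submodule.span_induction with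
    | mem w hw => exact hP f hf w hw
    | zero => rw [tens_zero_right]; exact P.zero_mem
    | add w w' _ _ h h' => rw [tens_add_right]; exact P.add_mem h h'
    | smul a w _ h => rw [tens_smul_right]; exact P.smul_mem _ h
  | zero => rw [tens_zero_left]; exact P.zero_mem
  | add f f' _ _ h h' => rw [tens_add_left]; exact P.add_mem h h'
  | smul a f _ h => rw [tens_smul_left]; exact P.smul_mem _ h

variable (e : Basis (Fin i ⊕ Fin j) k W)

/-- integral of a product -/
theorem integral_tens (f : W [⋀^Fin i]→ₗ[k] k) (w : M) (g : W [⋀^Fin j]→ₗ[k] k) :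
    integral e (LinearMap.lsmul k M).flip (tens f w) g = pr e f g • w := by
  unfold pr integral
  rw [Finset.sum_smul]
  refine Finset.sum_congr rfl fun σ _ => ?_
  rw [smul_assoc]
  congr 1
  change g _ • (f _ • w) = (g _ * f _) • w
  rw [mul_smul]

theorem integral_add_left (x x' : W [⋀^Fin i]→ₗ[k] M) (g : W [⋀^Fin j]→ₗ[k] k) :
    integral e (LinearMap.lsmul k M).flip (x + x') g =
      integral e (LinearMap.lsmul k M).flip x g + integral e (LinearMap.lsmul k M).flip x' g := by
  unfold integral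
  rw [← Finset.sum_add_distrib]
  refine Finset.sum_congr rfl fun σ _ => ?_
  rw [AlternatingMap.add_apply, map_add, LinearMap.add_apply, smul_add]

theorem integral_zero_left (g : W [⋀^Fin j]→ₗ[k] k) :
    integral e (LinearMap.lsmul k M).flip (0 : W [⋀^Fin i]→ₗ[k] M) g = 0 := by
  have h := integral_add_left e (0 : W [⋀^Fin i]→ₗ[k] M) 0 g
  rw [add_zero] at h
  exact left_eq_add.1 h

theorem integral_sum_left {ι : Type} (s : Finset ι) (x : ι → W [⋀^Fin i]→ₗ[k] M)
    (g : W [⋀^Fin j]→ₗ[k] k) : integral e (LinearMap.lsmul k M).flip (∑ a ∈ s, x a) g =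
      ∑ a ∈ s, integral e (LinearMap.lsmul k M).flip (x a) g := by
  classical
  induction s using Finset.induction_on with
  | empty => rw [Finset.sum_empty, Finset.sum_empty]; exact integral_zero_left e g
  | insert a s ha ih => rw [Finset.sum_insert ha, Finset.sum_insert ha, integral_add_left, ih]

end tensors

section main

variable {k : Type} [Field k] [CharZero k] [IsAlgClosed k] {V : Type} [AddCommGroup V]
  [Module k V] [FiniteDimensional k V] {Γ : Type} [Group Γ] {ρ : Representation k Γ V}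
  {χ : Γ →* k} {ω : V →ₗ[k] V →ₗ[k] k} {M : ℕ → Type} [∀ b, AddCommGroup (M b)]
  [∀ b, Module k (M b)] [∀ b, FiniteDimensional k (M b)] {n d : ℕ}
  {τ : ∀ b, Representation k Γ (M b)} {B : ∀ b b', M b →ₗ[k] M b' →ₗ[k] k}
  {ZA : ∀ j : ℕ, Set ((Fin n → V) [⋀^Fin j]→ₗ[k] k)} {ZU : ∀ b, AddSubgroup (M b)}
  {Z : ∀ j b : ℕ, Set ((Fin n → V) [⋀^Fin j]→ₗ[k] M b)} {γ : Γ}

/-- the Tate forms -/
def TT (ρ : Representation k Γ V) (χ : Γ →* k) (m n j : ℕ) :
    Submodule k ((Fin n → V) [⋀^Fin j]→ₗ[k] k) where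
  carrier := {f | IsTate ρ χ m f}
  zero_mem' := ⟨⊤, inferInstance, fun s _ v => by
    change (0 : k) = χ s ^ m * 0
    rw [mul_zero]⟩
  add_mem' := by
    rintro f g ⟨Δ, hΔ, hf⟩ ⟨Δ', hΔ', hg⟩
    refine ⟨Δ ⊓ Δ', inferInstance, fun s hs v => ?_⟩
    rw [AlternatingMap.add_apply, AlternatingMap.add_apply, hf s hs.1, hg s hs.2, mul_add]
  smul_mem' := by
    rintro a f ⟨Δ, hΔ, hf⟩
    refine ⟨Δ, hΔ, fun s hs v => ?_⟩
    rw [AlternatingMap.smul_apply, AlternatingMap.smul_apply, hf s hs, smul_eq_mul, smul_eq_mul]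
    ring

/-- The hypotheses on the abelian variety, the other variety and the element `γ`. -/
structure Hyp (ρ : Representation k Γ V) (χ : Γ →* k) (ω : V →ₗ[k] V →ₗ[k] k)
    (τ : ∀ b, Representation k Γ (M b)) (γ : Γ) (g : ℕ) : Prop where
  dim : finrank k V = 2 * g
  alt : ∀ v, ω v v = 0
  nd : ∀ u, (∀ v, ω v u = 0) → u = 0
  inv : ∀ s u v, ω (ρ s u) (ρ s v) = χ s * ω u v
  sep : (LinearMap.charpoly (ρ γ)).Separable
  rel : OnlyTrivialRelations (ρ γ) (χ γ) 1
  relU : ∀ b β, Module.End.HasEigenvalue (τ b γ) β →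
    OnlyTrivialRelations (ρ γ) (χ γ) β ∨ IsConjugatedOver (ρ γ) (χ γ) β

variable {g : ℕ}

theorem Hyp.mem_ZA (H : Hyp ρ χ ω τ γ g) (hZ : IsCycleTheory ρ χ n d τ B ZA ZU Z) {m j : ℕ}
    (hj : j = 2 * m) {f : (Fin n → V) [⋀^Fin j]→ₗ[k] k} (hf : IsTate ρ χ m f) :
    f ∈ Submodule.span k (ZA j) := by
  have h1 := scalar_mem ρ χ (fun m => splits ρ χ γ (1 : Representation k Γ k) m ω H.alt H.nd H.inv
    H.sep H.rel (by
      intro β hβ
      left
      obtain ⟨v, hv⟩ := hβ.exists_hasEigenvector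
      have h2 : v = β • v := hv.apply_eq_smul
      have h3 : β = 1 := by
        have h4 : (1 : k) * v = β * v := by rw [one_mul]; exact h2
        exact (mul_right_cancel₀ hv.2 h4).symm
      rw [h3]
      exact H.rel)) hj f hf
  refine Submodule.span_le.2 ?_ h1
  intro f' hf'
  exact hZ.divisors f' hf'

/-- The shape of the classes on `A ^ n × U`. -/
theorem Hyp.expand (H : Hyp ρ χ ω τ γ g) (hZ : IsCycleTheory ρ χ n d τ B ZA ZU Z) {i b c : ℕ}
    (hib : i + b = 2 * c) {x : (Fin n → V) [⋀^Fin i]→ₗ[k] M b} (hx : x ∈ Z i b) :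
    x ∈ Submodule.span k {y | ∃ (m : ℕ) (f : (Fin n → V) [⋀^Fin i]→ₗ[k] k) (w : M b), i = 2 * m ∧
      IsTate ρ χ m f ∧ y = tens f w} := by
  obtain ⟨Δ, hΔ, h⟩ := hZ.galois c hib x hx
  exact split_mem ρ χ (splits ρ χ γ (τ b) c ω H.alt H.nd H.inv H.sep H.rel (H.relU b)) x
    ⟨Δ, hΔ, h⟩

/-- In odd degree there is nothing. -/
theorem Hyp.odd (H : Hyp ρ χ ω τ γ g) (hZ : IsCycleTheory ρ χ n d τ B ZA ZU Z) {i b c : ℕ}
    (hib : i + b = 2 * c) {x : (Fin n → V) [⋀^Fin i]→ₗ[k] M b} (hx : x ∈ Z i b) (hi : Odd i) :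
    x = 0 := by
  have h1 := H.expand hZ hib hx
  have h2 : {y : (Fin n → V) [⋀^Fin i]→ₗ[k] M b | ∃ (m : ℕ)
      (f : (Fin n → V) [⋀^Fin i]→ₗ[k] k) (w : M b), i = 2 * m ∧
      IsTate ρ χ m f ∧ y = tens f w} ⊆ {0} := by
    rintro y ⟨m, f, w, hm, -⟩
    obtain ⟨q, hq⟩ := hi
    omega
  have h3 := Submodule.span_mono h2 h1
  rw [Submodule.span_singleton_eq_bot.2 rfl] at h3
  exact (Submodule.mem_bot k).1 h3

/-- **The expansion in a basis of the Tate classes, with coefficients the push-forwards of the products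
with the dual classes.** -/
theorem Hyp.expansion (H : Hyp ρ χ ω τ γ g) (hZ : IsCycleTheory ρ χ n d τ B ZA ZU Z)
    {i b c j m : ℕ} (hib : i + b = 2 * c) (hi : i = 2 * m)
    (e : Basis (Fin i ⊕ Fin j) k (Fin n → V)) {x : (Fin n → V) [⋀^Fin i]→ₗ[k] M b}
    (hx : x ∈ Z i b) :
    ∃ (r : ℕ) (f : Fin r → (Fin n → V) [⋀^Fin i]→ₗ[k] k)
      (f' : Fin r → (Fin n → V) [⋀^Fin j]→ₗ[k] k), (∀ a, f a ∈ Submodule.span k (ZA i)) ∧
      (∀ a, f' a ∈ Submodule.span k (ZA j)) ∧
      x = ∑ a, tens (f a) (integral e (LinearMap.lsmul k (M b)).flip x (f' a)) := by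
  classical
  have hdim : finrank k (Fin n → V) = 2 * (n * g) := by
    rw [Module.finrank_pi_fintype, Finset.sum_const, Finset.card_univ, Fintype.card_fin, H.dim,
      smul_eq_mul]
    ring
  have hcard := Module.finrank_eq_card_basis e
  rw [Fintype.card_sum, Fintype.card_fin, Fintype.card_fin, hdim] at hcard
  obtain ⟨m', hm'⟩ : ∃ m', j = 2 * m' := ⟨n * g - m, by omega⟩
  have hN : finrank k (Fin n → V) = 2 * (m + m') := by omega
  have : FiniteDimensional k ((Fin n → V) [⋀^Fin i]→ₗ[k] k) := finite_alt i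
  let BL : TT ρ χ m n i →ₗ[k] TT ρ χ m' n j →ₗ[k] k :=
    (prL e).domRestrict₁₂ (TT ρ χ m n i) (TT ρ χ m' n j)
  have hinj : Function.Injective BL := by
    rw [injective_iff_map_eq_zero]
    rintro ⟨f, hf⟩ h
    by_contra hf0
    obtain ⟨f', hf', hne⟩ := exists_dual ρ χ ω H.nd H.inv hN e (hZ.semisimple i) hf
      (fun h0 => hf0 (Subtype.ext h0))
    exact hne (LinearMap.congr_fun h ⟨f', hf'⟩)
  have : FiniteDimensional k (TT ρ χ m n i) := FiniteDimensional.finiteDimensional_submodule _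
  have hsurj : Function.Surjective BL.flip :=
    (@LinearMap.flip_surjective_iff₁ k (TT ρ χ m n i) (TT ρ χ m' n j) _ _ _ _ _ BL _).2 hinj
  have : Module.Free k (TT ρ χ m n i) := Module.Free.of_divisionRing k (TT ρ χ m n i)
  let bb := Module.finBasis k (TT ρ χ m n i)
  choose F hF using fun a => hsurj (bb.coord a)
  have hF' : ∀ a a', pr e (bb a' : (Fin n → V) [⋀^Fin i]→ₗ[k] k) (F a) = if a' = a then 1 else 0 := by
    intro a a'
    have h1 := LinearMap.congr_fun (hF a) (bb a')
    refine (Eq.trans ?_ h1).trans ?_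
    · rfl
    · rw [Basis.coord_apply, Basis.repr_self, Finsupp.single_apply]
  refine ⟨_, fun a => bb a, fun a => F a, fun a => H.mem_ZA hZ hi (bb a).2,
    fun a => H.mem_ZA hZ hm' (F a).2, ?_⟩
  obtain ⟨w, hw⟩ : ∃ w : Fin (finrank k (TT ρ χ m n i)) → M b, x = ∑ a, tens (bb a).1 (w a) := by
    have h1 := H.expand hZ hib hx
    clear hx
    induction h1 using Submodule.span_induction with
    | mem y hy =>
      obtain ⟨m₂, f, w, hm₂, hf, rfl⟩ := hy
      have hm : m₂ = m := by omega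
      subst hm
      refine ⟨fun a => bb.repr ⟨f, hf⟩ a • w, ?_⟩
      have h2 : f = ∑ a, bb.repr ⟨f, hf⟩ a • (bb a).1 := by
        have h3 := congrArg Subtype.val (bb.sum_repr ⟨f, hf⟩)
        rw [Submodule.coe_sum] at h3
        exact h3.symm
      conv_lhs => rw [h2]
      rw [tens_sum_left]
      refine Finset.sum_congr rfl fun a _ => ?_
      rw [tens_smul_left, tens_smul_right]
    | zero =>
      refine ⟨fun _ => 0, ?_⟩
      symm
      exact Finset.sum_eq_zero fun a _ => tens_zero_right _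
    | add y y' _ _ h h' =>
      obtain ⟨w, rfl⟩ := h
      obtain ⟨w', rfl⟩ := h'
      refine ⟨fun a => w a + w' a, ?_⟩
      rw [← Finset.sum_add_distrib]
      exact Finset.sum_congr rfl fun a _ => (tens_add_right _ _ _).symm
    | smul q y _ h =>
      obtain ⟨w, rfl⟩ := h
      refine ⟨fun a => q • w a, ?_⟩
      rw [Finset.smul_sum]
      exact Finset.sum_congr rfl fun a _ => (tens_smul_right _ _ _).symm
  have h1 : ∀ a, integral e (LinearMap.lsmul k (M b)).flip x (F a).1 = w a := by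
    intro a
    rw [hw, integral_sum_left, Finset.sum_eq_single a]
    · rw [integral_tens, hF', if_pos rfl, one_smul]
    · intro a' _ ha
      rw [integral_tens, hF', if_neg ha, zero_smul]
    · intro h
      exact absurd (Finset.mem_univ a) h
  rw [Finset.sum_congr rfl fun a _ => by rw [h1 a]]
  exact hw

/-- a basis adapted to the degrees -/
theorem exists_basis {i j : ℕ} (hij : i + j = finrank k (Fin n → V)) :
    Nonempty (Basis (Fin i ⊕ Fin j) k (Fin n → V)) :=
  ⟨(Module.finBasis k (Fin n → V)).reindex (Fintype.equivOfCardEq (by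
    rw [Fintype.card_sum, Fintype.card_fin, Fintype.card_fin, Fintype.card_fin, hij]))⟩

/-- **The Künneth formula for algebraic cycles modulo homological equivalence.** -/
theorem Hyp.kunneth (H : Hyp ρ χ ω τ γ g) (hZ : IsCycleTheory ρ χ n d τ B ZA ZU Z) :
    KunnethFormula ZA ZU Z := by
  intro c i b hib x hx
  rcases Nat.even_or_odd i with hi | hi
  · obtain ⟨m, hm⟩ := hi
    by_cases hik : i ≤ finrank k (Fin n → V)
    · obtain ⟨j, hij⟩ : ∃ j, i + j = finrank k (Fin n → V) := ⟨_, Nat.add_sub_cancel' hik⟩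
      obtain ⟨e⟩ := exists_basis (k := k) (V := V) (n := n) hij
      obtain ⟨r, f, f', hf, hf', hx'⟩ := H.expansion hZ hib (by omega : i = 2 * m) e hx
      rw [hx']
      refine Submodule.sum_mem _ fun a _ => ?_
      refine tens_mem (SA := ZA i) (SU := (ZU b : Set (M b)))
        (P := Submodule.span k {y | ∃ f ∈ ZA i, ∃ w ∈ ZU b, ∀ v, y v = f v • w}) (fun f hf w hw =>
        Submodule.subset_span ⟨f, hf, w, hw, fun v => rfl⟩) (hf a) ?_
      exact integral_mem e (LinearMap.lsmul k (M b)).flip x _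
        (fun f hf => hZ.pushforward e x f hx hf) (hf' a)
    · have hx0 : x = 0 := by
        ext v
        refine x.map_linearDependent v fun hv => hik ?_
        have h2 := hv.fintype_card_le_finrank
        rwa [Fintype.card_fin] at h2
      rw [hx0]
      exact Submodule.zero_mem _
  · rw [H.odd hZ hib hx hi]
    exact Submodule.zero_mem _

/-- **The conjecture D for `A ^ n × U`.** -/
theorem Hyp.conjectureD_iff (H : Hyp ρ χ ω τ γ g) (hZ : IsCycleTheory ρ χ n d τ B ZA ZU Z)
    (c : ℕ) : ConjectureDTimes d B Z c ↔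
      ∀ i, i ≤ c → 2 * i ≤ finrank k (Fin n → V) → ConjectureD d B ZU (c - i) := by
  classical
  constructor
  · intro hD i hi hi2 b' hb' w hw hw0
    obtain ⟨f, hf, hf0⟩ := hZ.ample i hi2
    obtain ⟨j, hj⟩ : ∃ j, 2 * i + j = finrank k (Fin n → V) := ⟨_, Nat.add_sub_cancel' hi2⟩
    have hx : tens f w ∈ Z (2 * i) (2 * (c - i)) := hZ.product f w _ hf hw fun v => rfl
    have h1 : tens f w = 0 := by
      refine hD (2 * i) (2 * (c - i)) j b' (by omega) hj hb' _ hx fun e y hy => ?_
      rw [product_integral e (B (2 * (c - i)) b') f w (tens f w) (fun v => rfl) y]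
      have h2 := hZ.pushforward (e.reindex (Equiv.sumComm (Fin (2 * i)) (Fin j))) y f hy hf
      have h3 : Submodule.span k (ZU b' : Set (M b')) ≤
          LinearMap.ker (B (2 * (c - i)) b' w) := by
        rw [Submodule.span_le]
        exact fun w' hw' => hw0 w' hw'
      exact h3 h2
    obtain ⟨v, hv⟩ : ∃ v, f v ≠ 0 := by
      by_contra hcon
      push Not at hcon
      exact hf0 (AlternatingMap.ext hcon)
    have h2 : f v • w = 0 := by
      have := congrArg (fun g => g v) h1
      exact this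
    exact (smul_eq_zero.1 h2).resolve_left hv
  · intro hD i b j b' hib hij hbb x hx hx0
    rcases Nat.even_or_odd i with hi | hi
    · obtain ⟨m, hm⟩ := hi
      obtain ⟨e⟩ := exists_basis (k := k) (V := V) (n := n) hij
      obtain ⟨r, f, f', hf, hf', hx'⟩ := H.expansion hZ hib (by omega : i = 2 * m) e hx
      rw [hx']
      refine Finset.sum_eq_zero fun a _ => ?_
      have hb2 : b = 2 * (c - m) := by omega
      subst hb2
      have hDm := hD m (by omega) (by omega) b' hbb
      have h1 : integral e (LinearMap.lsmul k (M (2 * (c - m)))).flip x (f' a) = 0 := by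
        refine eq_zero_of_span (B (2 * (c - m)) b') (ZU (2 * (c - m))) (ZU b')
          (hZ.integer _ _ hbb) hDm (integral_mem e (LinearMap.lsmul k (M (2 * (c - m)))).flip x _
            (fun f hf => hZ.pushforward e x f hx hf) (hf' a)) fun w' hw' => ?_
        have h2 := integral_mem e (LinearMap.lsmul k (M (2 * (c - m)))).flip x
          (LinearMap.ker ((B (2 * (c - m)) b').flip w')) (fun f hf => by
            rw [LinearMap.mem_ker, LinearMap.flip_apply,
              ← integral_product e (B (2 * (c - m)) b') x f w' (tens f w') fun v => rfl]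
            exact hx0 e _ (hZ.product f w' _ hf hw' fun v => rfl)) (hf' a)
        exact h2
      rw [h1, tens_zero_right]
    · exact H.odd hZ hib hx hi

end main

end

end Pool.Agent.V1194.DT
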