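import Pool.Agent.V1194.DT.Dual
import Pool.Agent.V1141.OF.TimesDefs
import Pool.Agent.H204R3.GP.DescentG

/-!
# Alternating forms from multilinear forms
-/

set_option autoImplicit false
set_option linter.unusedSectionVars false

namespace Pool.Agent.V1194.DT

open Module Pool.Agent.V1141.OF

noncomputable section

section alt

variable {k : Type} [Field k] [CharZero k] {V : Type} [AddCommGroup V] [Module k V]
  {M : Type} [AddCommGroup M] [Module k M]

variable (k V M) in
/-- The alternating form on `V ^ n` given by a multilinear form on `V` and coordinates `p`. -/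
def alt {n j : ℕ} (p : Fin j → Fin n) :
    MultilinearMap k (fun _ : Fin j => V) M →ₗ[k] (Fin n → V) [⋀^Fin j]→ₗ[k] M where
  toFun G := MultilinearMap.alternatization (G.compLinearMap fun l => LinearMap.proj (p l))
  map_add' G G' := by
    rw [← map_add]
    rfl
  map_smul' a G := by
    ext v
    rw [RingHom.id_apply, AlternatingMap.smul_apply, MultilinearMap.alternatization_apply,
      MultilinearMap.alternatization_apply, Finset.smul_sum]
    refine Finset.sum_congr rfl fun σ _ => ?_
    rw [smul_comm]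
    rfl

theorem alt_apply {n j : ℕ} (p : Fin j → Fin n) (G : MultilinearMap k (fun _ : Fin j => V) M)
    (v : Fin j → Fin n → V) : alt k V M p G v = ∑ σ : Equiv.Perm (Fin j), Equiv.Perm.sign σ •
      G fun l => v (σ l) (p l) := by
  change MultilinearMap.alternatization _ v = _
  rw [MultilinearMap.alternatization_apply]
  rfl

/-- the components -/
def cmp {n j : ℕ} (x : (Fin n → V) [⋀^Fin j]→ₗ[k] M) (p : Fin j → Fin n) :
    MultilinearMap k (fun _ : Fin j => V) M :=
  x.toMultilinearMap.compLinearMap fun l => LinearMap.single k (fun _ : Fin n => V) (p l)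

theorem factorial_smul {n j : ℕ} (x : (Fin n → V) [⋀^Fin j]→ₗ[k] M) :
    j.factorial • x = ∑ p : Fin j → Fin n, alt k V M p (cmp x p) := by
  have h1 : x.toMultilinearMap = ∑ p : Fin j → Fin n,
      (cmp x p).compLinearMap fun l => LinearMap.proj (p l) := by
    refine MultilinearMap.ext fun v => ?_
    rw [MultilinearMap.sum_apply]
    have h1 : v = fun l => ∑ i, Pi.single i (v l i) := by
      funext l
      exact (Finset.univ_sum_single (v l)).symm
    conv_lhs => rw [h1]
    exact x.toMultilinearMap.map_sum (fun l i => Pi.single i (v l i))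
  have h2 := AlternatingMap.coe_alternatization x
  rw [Fintype.card_fin] at h2
  rw [← h2]
  change MultilinearMap.alternatization x.toMultilinearMap = _
  rw [h1, map_sum]
  rfl

end alt

section split

variable {k : Type} [Field k] [CharZero k] {V : Type} [AddCommGroup V] [Module k V]
  {M : Type} [AddCommGroup M] [Module k M] {Γ : Type} [Group Γ] (ρ : Representation k Γ V)
  (χ : Γ →* k)

/-- the product of a class and a vector -/
def tens {W : Type} [AddCommGroup W] [Module k W] {j : ℕ} (f : W [⋀^Fin j]→ₗ[k] k) (w : M) :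
    W [⋀^Fin j]→ₗ[k] M := (LinearMap.toSpanSingleton k M w).compAlternatingMap f

theorem tens_apply {W : Type} [AddCommGroup W] [Module k W] {j : ℕ} (f : W [⋀^Fin j]→ₗ[k] k)
    (w : M) (v : Fin j → W) : tens f w v = f v • w := rfl

/-- a product of Tate classes on pairs is a Tate class -/
theorem tate_of_two {j : ℕ} {ψ : MultilinearMap k (fun _ : Fin j => V) k}
    (h : IsProductOfTwo (V := fun _ : Unit => V) (fun _ => ρ) χ (fun _ => 0) (fun _ : Fin j => ())
      ψ) : ∃ m, j = 2 * m ∧ ∃ Δ : Subgroup Γ, Δ.FiniteIndex ∧ ∀ s ∈ Δ, ∀ v : Fin j → V,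
        ψ (fun l => ρ s (v l)) = χ s ^ m * ψ v := by
  obtain ⟨m, ε, B, hB, hψ⟩ := h
  choose Δ hΔ hB using hB
  refine ⟨m, ?_, ⨅ l, Δ l, Subgroup.finiteIndex_iInf hΔ, fun s hs v => ?_⟩
  · have h1 := Fintype.card_congr ε
    rw [Fintype.card_prod, Fintype.card_fin, Fintype.card_fin, Fintype.card_fin] at h1
    omega
  · rw [hψ, hψ]
    have h1 : ∀ l, B l (ρ s (v (ε (l, 0)))) (ρ s (v (ε (l, 1)))) =
        χ s * B l (v (ε (l, 0))) (v (ε (l, 1))) := by
      intro l
      have h2 := hB l s (Subgroup.mem_iInf.1 hs l) (v (ε (l, 0))) (v (ε (l, 1)))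
      refine h2.trans ?_
      change χ s ^ (0 + 0 + 1) * _ = _
      rw [zero_add, pow_one]
    rw [Finset.prod_congr rfl fun l _ => h1 l, Finset.prod_mul_distrib, Finset.prod_const,
      Finset.card_univ, Fintype.card_fin]

/-- **Classes with values in `M`.** -/
theorem split_mem {τ : Representation k Γ M}
    (h : TateClassesSplit (V := fun _ : Unit => V) (fun _ => ρ) τ χ (fun _ => 0)) {n j : ℕ}
    (x : (Fin n → V) [⋀^Fin j]→ₗ[k] M) (hx : ∃ Δ : Subgroup Γ, Δ.FiniteIndex ∧ ∀ s ∈ Δ, ∀ v,
      x (fun l => act ρ n s (v l)) = τ s (x v)) :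
    x ∈ Submodule.span k {y | ∃ (m : ℕ) (f : (Fin n → V) [⋀^Fin j]→ₗ[k] k) (w : M), j = 2 * m ∧
      IsTate ρ χ m f ∧ y = tens f w} := by
  obtain ⟨Δ, hΔ, hx⟩ := hx
  set P := Submodule.span k {y | ∃ (m : ℕ) (f : (Fin n → V) [⋀^Fin j]→ₗ[k] k) (w : M),
    j = 2 * m ∧ IsTate ρ χ m f ∧ y = tens f w} with hP
  have h1 : ∀ p : Fin j → Fin n, alt k V M p (cmp x p) ∈ P := by
    intro p
    have h2 : cmp x p ∈ Submodule.span k {g | IsProductTimes (V := fun _ : Unit => V)
        (fun _ => ρ) τ χ (fun _ => 0) (fun _ : Fin j => ()) g} := by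
      refine h j (fun _ => ()) (cmp x p) ⟨Δ, hΔ, fun s hs v => ?_⟩
      have h3 := hx s hs (fun l => Pi.single (p l) (v l))
      change x (fun l => Pi.single (p l) (ρ s (v l))) = τ s (x fun l => Pi.single (p l) (v l))
      rw [← h3]
      congr 1
      funext l i
      change _ = ρ s ((Pi.single (p l) (v l) : Fin n → V) i)
      by_cases hi : i = p l
      · subst hi
        rw [Pi.single_eq_same, Pi.single_eq_same]
      · rw [Pi.single_eq_of_ne hi, Pi.single_eq_of_ne hi, map_zero]
    have h3 : alt k V M p (cmp x p) ∈ (Submodule.span k {g | IsProductTimes (V := fun _ : Unit => V)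
        (fun _ => ρ) τ χ (fun _ => 0) (fun _ : Fin j => ()) g}).map (alt k V M p) :=
      Submodule.mem_map_of_mem h2
    rw [Submodule.map_span] at h3
    refine Submodule.span_le.2 ?_ h3
    rintro _ ⟨G, ⟨ψ, hψ, w, N, hN, hw, hG⟩, rfl⟩
    obtain ⟨m, hm, Δ', hΔ', hψ'⟩ := tate_of_two ρ χ hψ
    refine Submodule.subset_span ⟨m, alt k V k p ψ, w, hm, ⟨Δ', hΔ', fun s hs v => ?_⟩, ?_⟩
    · rw [alt_apply, alt_apply, Finset.mul_sum]
      refine Finset.sum_congr rfl fun σ _ => ?_
      rw [mul_smul_comm]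
      congr 1
      exact hψ' s hs fun l => v (σ l) (p l)
    · ext v
      rw [tens_apply, alt_apply, alt_apply, Finset.sum_smul]
      refine Finset.sum_congr rfl fun σ _ => ?_
      rw [smul_assoc]
      congr 1
      exact hG _
  have h2 : (j.factorial : k) • x ∈ P := by
    rw [Nat.cast_smul_eq_nsmul, factorial_smul]
    exact Submodule.sum_mem _ fun p _ => h1 p
  have h3 := Submodule.smul_mem _ ((j.factorial : k))⁻¹ h2
  rwa [smul_smul, inv_mul_cancel₀ (Nat.cast_ne_zero.2 (Nat.factorial_ne_zero _)), one_smul] at h3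

/-- the representation `χ ^ c ⊗ τ` -/
def tw (c : ℕ) (τ : Representation k Γ M) : Representation k Γ M where
  toFun s := χ s ^ c • τ s
  map_one' := by rw [map_one, map_one, one_pow, one_smul]
  map_mul' s t := by
    rw [map_mul, map_mul, mul_pow]
    ext v
    change (χ s ^ c * χ t ^ c) • τ s (τ t v) = χ s ^ c • τ s (χ t ^ c • τ t v)
    rw [map_smul, smul_smul]

/-- **Tate classes on `A ^ n` are products of Tate classes of degree two.** -/
theorem scalar_mem (h : ∀ m, TateClassesSplit (V := fun _ : Unit => V) (fun _ => ρ)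
      (tw χ m (1 : Representation k Γ k)) χ (fun _ => 0)) {n j m : ℕ} (hj : j = 2 * m)
    (f : (Fin n → V) [⋀^Fin j]→ₗ[k] k) (hf : IsTate ρ χ m f) :
    f ∈ Submodule.span k {g | IsProduct ρ χ g} := by
  classical
  have hall : ∀ φ : MultilinearMap k (fun _ : Fin m × Fin 2 => V) k,
      Pool.Agent.H204R3.SP.IsTate ρ χ m φ →
      φ ∈ Submodule.span k (Pool.Agent.H204R3.GP.PT ρ χ m) := by
    rintro φ ⟨Δ, hΔ, hφ⟩
    let θ : Fin m × Fin 2 ≃ Fin (m * 2) := finProdFinEquiv
    let D : MultilinearMap k (fun _ : Fin (m * 2) => V) k →ₗ[k]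
        MultilinearMap k (fun _ : Fin m × Fin 2 => V) k :=
      { toFun := fun G => G.domDomCongr θ.symm
        map_add' := fun _ _ => rfl
        map_smul' := fun _ _ => rfl }
    have h1 : φ.domDomCongr θ ∈ Submodule.span k {g | IsProductTimes (V := fun _ : Unit => V)
        (fun _ => ρ) (tw χ m (1 : Representation k Γ k)) χ (fun _ => 0)
        (fun _ : Fin (m * 2) => ()) g} := by
      refine h m (m * 2) (fun _ => ()) (φ.domDomCongr θ) ⟨Δ, hΔ, fun s hs v => ?_⟩
      exact hφ s hs fun l => v (θ l)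
    have h2 : φ ∈ (Submodule.span k {g | IsProductTimes (V := fun _ : Unit => V)
        (fun _ => ρ) (tw χ m (1 : Representation k Γ k)) χ (fun _ => 0)
        (fun _ : Fin (m * 2) => ()) g}).map D := by
      refine ⟨_, h1, ?_⟩
      ext v
      change φ (fun l => v (θ.symm (θ l))) = φ v
      congr 1
      funext l
      rw [Equiv.symm_apply_apply]
    rw [Submodule.map_span] at h2
    refine Submodule.span_le.2 ?_ h2
    rintro _ ⟨G, ⟨ψ, ⟨m', ε, B, hB, hψ⟩, w, N, hN, hw, hG⟩, rfl⟩
    have hm : m' = m := by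
      have h1 := Fintype.card_congr ε
      rw [Fintype.card_prod, Fintype.card_fin, Fintype.card_fin, Fintype.card_fin] at h1
      omega
    subst hm
    have h3 : D G = w • Pool.Agent.H204R3.GP.mmG (ε.trans θ.symm) B := by
      ext v
      change G (fun l => v (θ.symm l)) = w * _
      rw [hG, hψ, smul_eq_mul, mul_comm, Pool.Agent.H204R3.GP.mmG_apply]
      rfl
    rw [h3]
    refine Submodule.smul_mem _ _ (Submodule.subset_span ⟨_, B, fun l => ?_, rfl⟩)
    obtain ⟨Δ', hΔ', hB'⟩ := hB l
    refine ⟨Δ', hΔ', fun s hs u v => ?_⟩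
    refine (hB' s hs u v).trans ?_
    change χ s ^ (0 + 0 + 1) * _ = _
    rw [zero_add, pow_one]
  obtain ⟨Δ, hΔ, hf⟩ := hf
  subst hj
  let θ : Fin m × Fin 2 ≃ Fin (2 * m) := finProdFinEquiv.trans (finCongr (mul_comm m 2))
  let f' : (Fin n → V) [⋀^Fin m × Fin 2]→ₗ[k] k := f.domDomCongr θ.symm
  have h1 := Pool.Agent.H204R3.GP.altG_of_tate_mem ρ χ hall f' Δ hΔ fun s hs v =>
    hf s hs fun l => v (θ.symm l)
  let D : (Fin n → V) [⋀^Fin m × Fin 2]→ₗ[k] k →ₗ[k] (Fin n → V) [⋀^Fin (2 * m)]→ₗ[k] k :=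
    { toFun := fun G => G.domDomCongr θ
      map_add' := fun _ _ => rfl
      map_smul' := fun _ _ => rfl }
  have h2 := Submodule.mem_map_of_mem (f := D) h1
  have h3 : D f' = f := by
    ext v
    change f (fun l => v (θ (θ.symm l))) = f v
    congr 1
    funext l
    rw [Equiv.apply_symm_apply]
  rw [Submodule.map_span, h3] at h2
  refine Submodule.span_mono ?_ h2
  rintro _ ⟨G, ⟨B, hB, hG⟩, rfl⟩
  refine ⟨m, θ, B, fun l => ?_, fun v => ?_⟩
  · obtain ⟨Δ', hΔ', hB'⟩ := hB l
    refine ⟨Δ', hΔ', fun s hs v => ?_⟩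
    rw [pow_one]
    exact hB' s hs v
  · exact hG fun l => v (θ l)

end split

end

end Pool.Agent.V1194.DT
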